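import Pool.Agent.Helper3.WA.St.Stubs
import Pool.Agent.Helper48.ET.SelectOf

/-! WA-9: choice of the parameters for all lengths `≤ M`. -/

set_option autoImplicit false

namespace Pool.Agent.Helper52.WA

open Finset Filter
open Pool.Agent.Helper48.ET
open Pool.Agent.Helper3.WT (rp GG P0)
open Pool.Agent.Helper3.WA

section codes

variable {p : ℕ} [Fact p.Prime]

theorem select_wa {C M : ℕ} (hC : 8 ≤ C) (hev : Even C) (hp : P0 C M < p) :
    ∃ θ : ℕ → Par p, (∀ n ≤ M, (θ n).lam ≠ 0 ∧ (θ n).tau 0 2 0 ≠ 0) ∧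
      (∀ n, n + 1 ≤ M → ∀ t w : ℕ → ZMod p,
        (trunc (n + 1) '' SolG (PW C n (θ n)) (LW C (n + 1) (θ (n + 1))) t w).ncard ≤ GG C M) ∧
      (∀ n' n, n' + 2 ≤ n → n ≤ M → ∀ t w : ℕ → ZMod p,
        (SolG (PW C n' (θ n')) (LW C n (θ n)) t w).ncard ≤ GG C M) ∧
      (∀ n ≤ M, ∀ t w : ℕ → ZMod p,
        (SolG (LW C n (θ n)) (LW C n (θ n)) t w).ncard ≤ GG C M) := by
  classical
  have hp' : M * (2 * Del C + 1) + 2 < p := hp
  have : Inhabited (Par p) := ⟨⟨0, fun _ _ _ => 0⟩⟩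
  -- the requirement on a pair of lengths
  set Rq : ℕ → ℕ → Par p → Par p → Prop := fun n n' v' v =>
    n ≤ M → ((n' + 1 = n → ∀ t w : ℕ → ZMod p,
        (trunc (n' + 1) '' SolG (PW C n' v') (LW C n v) t w).ncard ≤ GG C M) ∧
      (n' + 2 ≤ n → ∀ t w : ℕ → ZMod p,
        (SolG (PW C n' v') (LW C n v) t w).ncard ≤ GG C M)) with hRq
  have hpoly : ∀ n n' : ℕ, n' < n → n ≤ M → ∀ v' : Par p,
      ∃ P : MvPolynomial (Option (ℕ × ℕ × ℕ)) (Om p), P ≠ 0 ∧
        P.totalDegree ≤ 2 * Del C + 1 ∧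
        ∀ θ : Par p, MvPolynomial.eval θ.val P ≠ 0 → Rq n n' v' θ := by
    intro n n' hlt hn v'
    rcases Nat.lt_or_ge n (n' + 2) with h | h
    · obtain rfl : n = n' + 1 := by omega
      obtain ⟨P, h1, h2, h3⟩ := St.pair_near hC hev hn v'
      refine ⟨P, h1, h2, fun θ hθ _ => ⟨fun _ => h3 θ hθ, fun h4 => ?_⟩⟩
      omega
    · obtain ⟨P, h1, h2, h3⟩ := St.pair_far hC hev h hn v'
      refine ⟨P, h1, h2, fun θ hθ _ => ⟨fun h4 => ?_, fun _ => h3 θ hθ⟩⟩
      omega
  have hstep : ∀ n, ∀ f : ℕ → Par p, ∃ v : Par p, (v.lam ≠ 0 ∧ v.tau 0 2 0 ≠ 0) ∧ ∀ n' < n,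
      Rq n n' (f n') v := by
    intro n f
    by_cases hn : n ≤ M
    · have hP : ∀ n' ∈ range n, ∃ P : MvPolynomial (Option (ℕ × ℕ × ℕ)) (Om p), P ≠ 0 ∧
          P.totalDegree ≤ 2 * Del C + 1 ∧
          ∀ θ : Par p, MvPolynomial.eval θ.val P ≠ 0 → Rq n n' (f n') θ := by
        intro n' hn'
        exact hpoly n n' (mem_range.1 hn') hn (f n')
      choose! P hP0 hPd hP using hP
      set Q : MvPolynomial (Option (ℕ × ℕ × ℕ)) (Om p) :=
        MvPolynomial.X none * MvPolynomial.X (some (0, 2, 0)) * ∏ n' ∈ range n, P n' with hQ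
      have hQ0 : Q ≠ 0 := by
        rw [hQ]
        refine mul_ne_zero (mul_ne_zero (MvPolynomial.X_ne_zero _) (MvPolynomial.X_ne_zero _)) ?_
        rw [prod_ne_zero_iff]
        exact hP0
      have hQd : Q.totalDegree < p := by
        have h1 : Q.totalDegree ≤ (1 + 1) + n * (2 * Del C + 1) := by
          rw [hQ]
          refine (MvPolynomial.totalDegree_mul _ _).trans ?_
          refine Nat.add_le_add ?_ ?_
          · refine (MvPolynomial.totalDegree_mul _ _).trans ?_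
            rw [MvPolynomial.totalDegree_X, MvPolynomial.totalDegree_X]
          · refine (MvPolynomial.totalDegree_finsetProd _ _).trans ?_
            refine (sum_le_card_nsmul _ _ _ hPd).trans ?_
            rw [card_range, smul_eq_mul]
        have h2 : n * (2 * Del C + 1) ≤ M * (2 * Del C + 1) := Nat.mul_le_mul_right _ hn
        omega
      obtain ⟨x, hx⟩ := exists_eval_ne_zero Q hQ0 hQd
      rw [hQ, map_mul, map_mul, MvPolynomial.eval_X, MvPolynomial.eval_X, map_prod] at hx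
      have hx1 := left_ne_zero_of_mul (left_ne_zero_of_mul hx)
      have hx1' := right_ne_zero_of_mul (left_ne_zero_of_mul hx)
      have hx2 := right_ne_zero_of_mul hx
      rw [prod_ne_zero_iff] at hx2
      have hval : (⟨x none, fun i s u => x (some (i, s, u))⟩ : Par p).val =
          fun v => algebraMap (ZMod p) (Om p) (x v) := by
        funext v
        rcases v with _ | ⟨i, s, u⟩ <;> rfl
      refine ⟨⟨x none, fun i s u => x (some (i, s, u))⟩, ⟨?_, ?_⟩, ?_⟩
      · intro h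
        apply hx1
        change x none = 0 at h
        rw [h, map_zero]
      · intro h
        apply hx1'
        change x (some (0, 2, 0)) = 0 at h
        rw [h, map_zero]
      · intro n' hn'
        have hmem : n' ∈ range n := mem_range.2 hn'
        refine hP n' hmem _ ?_
        rw [hval]
        exact hx2 n' hmem
    · refine ⟨⟨1, fun _ _ _ => 1⟩, ⟨one_ne_zero, one_ne_zero⟩, ?_⟩
      intro n' _ h
      exact absurd h hn
  obtain ⟨θ, hθ⟩ := SelAux.strong_choice (α := Par p) (fun n n' v' v => Rq n n' v' v)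
    (fun _ v => v.lam ≠ 0 ∧ v.tau 0 2 0 ≠ 0) hstep
  refine ⟨θ, fun n _ => (hθ n).1, ?_, ?_, ?_⟩
  · intro n hn t w
    exact ((hθ (n + 1)).2 n (Nat.lt_succ_self n) hn).1 rfl t w
  · intro n' n h hn t w
    exact ((hθ n).2 n' (by omega) hn).2 h t w
  · intro n hn t w
    exact St.pair_same hC hn (by omega) (θ n) (hθ n).1.1 t w

end codes

end Pool.Agent.Helper52.WA
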